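import Pool.Agent.ZCP.Two

/-!
# Any two points of elliptic curves lie in systems of orthogonal groups which meet

Beilinson and Bloch predict that the kernel of the Albanese map of a product of elliptic curves
over `ℚ̄` is torsion in the Chow group of zero-cycles. We show this for zero-cycles which are
supported on products of certain groups of points.

A system (`IsSystem`) is a family of subgroups `G E` of `E(ℚ̄)`, for all Weierstrass curves `E`,
which is compatible with homomorphisms and stable under the Galois group of a number field `K`,
such that each `G E` has infinite rank and contains points of arbitrarily large degree over each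
number field, and such that the prediction holds for all zero-cycles on products `E 1 × ... × E N`
of any number of elliptic curves which are supported on `G (E 1) × ... × G (E N)`.

We show that every point `P₀` of every elliptic curve `E₀` lies in a system `G`, which meets the
orthogonal complement of every point `P'` of every elliptic curve `E'`: there are infinitely many
elliptic curves `E` over one number field `F`, with different `j`-invariants, and points `R` of
infinite order in `E(F)`, which are in `G E` and in `G' E` for a system `G'` with `P' ∈ G' E'`. It
follows that the prediction holds for all zero-cycles on `E' × E` which are supported on the product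
of the group of all `Q` with a multiple in `G E' + G' E'` and the group `G E ∩ G' E`.

In particular, let `E'` be an elliptic curve over a number field `L`, and suppose that the group
`E'(L)` has rank two, or that it has a subgroup of finite index which is generated by `P₀` and `P'`
and by torsion points. Then there are infinitely many elliptic curves `E` over one number field `F`,
and points `R` of infinite order in `E(F)`, such that all zero-cycles in the kernel of the Albanese
map of `E' × E` which are supported on `E'(L) × ℤ R` are torsion.

Idea of the proof. For `u ∈ ℚ̄` and two Legendre curves `y² = x (x - 1) (x - λ)` with parameters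
`λ`, `μ` let `P` and `Q` be points with the same abscissa `u`. The curve `x(P) = x(Q)` in the product
has genus at most two and is hyperelliptic, with hyperelliptic involution induced by `(-1, -1)`;
this shows that the symbol of `P` and `Q` is killed by `2`. Let `G E` consist of the points with a
multiple in the group generated by the images in `E(ℚ̄)` of all points with abscissa `u` of all
Legendre curves, under all morphisms to `E` which map the origin to the origin. We choose `u` such
that it is the abscissa of `n P₀ + (1, 0)`, where `n P₀` is `2`-adically close to the origin; so `u`
is close to `1`, and this implies that the rank of `G E` is infinite. Now let `v` be the abscissa of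
`m P' + (0, 0)` on the Legendre form of `E'`, where `m P'` is `2`-adically close to the origin; so
`v` is close to `0`. On the Legendre curve with parameter `b = u v` the points with abscissa `u` and
`v` differ by the point `(0, 0)` of order two. So the point `R` with abscissa `u` belongs to both
systems. It has infinite order because `R + (1, 0)` is `2`-adically close to the origin, and the
twist `Y² = X (X - d) (X - d b)` with `d = (u - 1) (1 - v)` makes it rational over the field of `u`
and `v`. The number `v` may be arbitrarily close to `0`, and so the `j`-invariant is arbitrarily
large.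
-/

set_option autoImplicit false

noncomputable section

namespace Pool.Agent.Results.MP_6dc9d1_nt.AnyTwoPoints

open Pool.Agent.ZC WeierstrassCurve
open scoped Classical

theorem result (E₀ : WeierstrassCurve (AlgebraicClosure ℚ)) [E₀.IsElliptic]
    (P₀ : E₀.toAffine.Point) :
    ∃ (K : IntermediateField ℚ (AlgebraicClosure ℚ))
      (G : (E : WeierstrassCurve (AlgebraicClosure ℚ)) → AddSubgroup E.toAffine.Point),
      IsSystem K G ∧ P₀ ∈ G E₀ ∧
      ∀ (E' : WeierstrassCurve (AlgebraicClosure ℚ)) [E'.IsElliptic] (P' : E'.toAffine.Point),
        ∃ F : IntermediateField ℚ (AlgebraicClosure ℚ), FiniteDimensional ℚ F ∧ K ≤ F ∧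
          {j : F | ∃ (E : WeierstrassCurve F) (_ : E.IsElliptic) (R : (E⁄F).toAffine.Point)
            (K' : IntermediateField ℚ (AlgebraicClosure ℚ))
            (G' : (E : WeierstrassCurve (AlgebraicClosure ℚ)) → AddSubgroup E.toAffine.Point),
            E.j = j ∧
            ¬ IsOfFinAddOrder
              (Affine.Point.map (W' := E) (Algebra.ofId F (AlgebraicClosure ℚ)) R) ∧
            K' ≤ F ∧ IsSystem K' G' ∧ P' ∈ G' E' ∧
            Affine.Point.map (W' := E) (Algebra.ofId F (AlgebraicClosure ℚ)) R ∈
              G (E⁄(AlgebraicClosure ℚ)) ∧
            Affine.Point.map (W' := E) (Algebra.ofId F (AlgebraicClosure ℚ)) R ∈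
              G' (E⁄(AlgebraicClosure ℚ)) ∧
            ∀ z : Z0N ![E', E⁄(AlgebraicClosure ℚ)],
              (∀ p ∈ z.support, (∃ k : ℕ, 0 < k ∧ k • p 0 ∈ G E' ⊔ G' E') ∧
                p 1 ∈ G (E⁄(AlgebraicClosure ℚ)) ⊓ G' (E⁄(AlgebraicClosure ℚ))) →
              z.sum (fun _ a => a) = 0 → (∀ i, z.sum (fun p a => a • p i) = 0) →
              ∃ M : ℕ, 0 < M ∧ M • z ∈ RatEqN ![E', E⁄(AlgebraicClosure ℚ)]}.Infinite := by
  obtain ⟨K, G, hG, hP, H⟩ := two_points E₀ P₀
  refine ⟨K, G, hG, hP, fun E' _ P' => ?_⟩
  obtain ⟨F, hF, hK, h⟩ := H E' P'
  refine ⟨F, hF, hK, h.mono ?_⟩
  rintro j ⟨E, hE, R, K', G', h1, h2, h3, h4, h5, h6, h7⟩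
  refine ⟨E, hE, R, K', G', h1, h2, h3, h4, h5, h6, h7, fun z hz hd hs => ?_⟩
  refine two_systems hG h4 ![E', E⁄(AlgebraicClosure ℚ)] ?_ z hz hd hs
  intro i
  refine Fin.cases ‹E'.IsElliptic› (fun i => ?_) i
  refine Fin.cases ?_ (fun i => i.elim0) i
  exact inferInstanceAs (E.map (algebraMap F (AlgebraicClosure ℚ))).IsElliptic

end Pool.Agent.Results.MP_6dc9d1_nt.AnyTwoPoints
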