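import Pool.Agent.FPZ.RatDbl
import Pool.Agent.FPZ.Univ
import Pool.Agent.FPZ.Ell5
import Pool.Agent.FPZ.AbCov5
import Pool.Agent.FPZ.Hir9
import Pool.Agent.FPZ.Et12

/-!
# The zero-cycle of Faber and Pandharipande and the conjecture of Beilinson

For a smooth projective curve `D` with canonical divisor `K` let
`FP(D) = K × K - deg(K) Δ_*(K)` in the Chow group of `D × D`; it lies in the kernel of the Albanese
map. We show that this one canonical zero-cycle is universal: over every algebraically closed
field `k` of characteristic zero a multiple of every zero-cycle in the kernel of the Albanese map
of a product of curves is a combination of images of the cycles `FP(D)`. Here the curves `D` which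
are Galois coverings of the projective line and étale coverings of hyperelliptic curves suffice.

On the product `C × C` all symmetric cycles in this kernel are obtained, up to multiples, from the
double coverings `D → C`. If `C` is the hyperelliptic curve `y ^ 2 = f(x)` of genus `g`, already the
double coverings of genus `2 g` which are branched over two points suffice. The cycle `FP(D)` is
torsion if the genus of `D` is at most three. The curves `D` of genus four suffice for the curves
`C` of genus two, and so for their Jacobians, and also for all products of elliptic curves. We also
show that `FP(D)` is torsion if `D` is an abelian covering of the projective line, and if `D` is a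
smooth curve in the Hirzebruch surface `F_n`, `n > 0`, which does not meet the negative section (for
`n = 1` these are the smooth plane curves).

If `k` is the field of algebraic numbers, curves `D` over `ℚ` suffice, and also the Galois étale
coverings of the curves `y ^ 2 = x ^ n - 1` which are Galois coverings of the projective line with
the coordinate `x ^ n`. The prediction of the conjectures of Beilinson, that the kernel of the
Albanese map is torsion for all products of curves over number fields, is equivalent to the
statement that `FP(D)` is torsion for all curves `D` over `ℚ`, and also to the statement that
`FP(D)` is torsion for these coverings `D` of the curves `y ^ 2 = x ^ n - 1`.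

Idea of the proof. The Chow group of `D × D` modulo torsion carries the quadratic function
`fp(A) = A × A - deg(A) Δ_*(A)` of the divisor class `A`, and `fp(m p + n q) = -m n (p - q) × (p - q)`.

Double coverings: let `f` be a function on the curve `C` with the divisor of poles `2 Y`, and let `c`
be a value of `f` which is not critical. Let `D → C` be the double covering given by the square root
of `f - c`. The push-forward of its canonical divisor to `C` is `2 K` plus the branch divisor, which
is linearly equivalent to `2 Y`. Therefore the push-forward of `FP(D)` is `4 fp(K + Y)`. We apply
this to the powers of a function and take differences, and obtain `fp(Y)` for the divisors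
`Y = m p` and `Y = m p + n q`, where `m` and `n` are positive. So the cycles `(p - q) × (p - q)` are
combinations of images of the cycles `FP(D)`. These cycles generate the symmetric part.

Hyperelliptic curves: let `o` be the point of `C` at infinity. There is a function with the divisor
`p + q + 2 E`, where the degree of `E` is `-1`, because the divisor `p - o` is divisible by two in the
Picard group, explicitly `x - a` times a square is the norm of `A + B y` for polynomials `A`, `B` with
`f = A ^ 2 + (X - a) B ^ 2`. The canonical divisor of the double covering has the push-forward
`2 (2 g - 2) o + p + q`, and `(p - o) × (p - o)` is torsion because of the hyperelliptic involution.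
So the image of `FP(D)` is `-(p - q) × (p - q)` up to torsion.

Products of elliptic curves: two elliptic curves `E` and `E'` are double coverings of the line with
four branch points, and we may assume that exactly three of them are the same. Then the compositum
is a curve `C` of genus two with double coverings `π : C → E` and `π' : C → E'`, such that
`π'_* π^* = 0` for divisors of degree zero. For such divisors `A` on `E` and `B` on `E'` let
`z = π^*(A) × π'^*(B)`. The image of `z` on `E × E'` is `4 A × B`, and the image of the transpose of
`z` is zero. The sum of `z` and its transpose is a combination of images of the cycles `FP(D)`,
where the genus of `D` is four.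

Abelian coverings `D` of the projective line with the group `A`: let `h` be a fibre. For `n` in `A`
and a point `x` of `D` the class `Z_n` of the sum of the points `(g x, g n x)` is the image of `h`
under the graph of `n`, so it does not depend on `x`. If `s` fixes `x`, then `Z_(n s) = Z_n`. The
stabilizers generate `A`, because the projective line has no unramified coverings. So all `Z_n`
are equal to the image of `h` on the diagonal, `h × h` is the sum of the `Z_n`, and the canonical
divisor is a rational multiple of `h`.

Smooth curves in Hirzebruch surfaces: let `h` be a fibre of `x`. Let `M` be the Galois closure of the
function `x`, with the group `G`, and let `π` be the projection to the curve `D`, which belongs to the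
subgroup `H`. If `σ` is not in `H`, the divisor of `y - σ⁻¹ y` is `L - n P`, where `P` is the divisor
of poles of `x`, and `π v = π (σ v)` for all points `v` of `L`, because `x` and `y` separate the
points of `D`. So `L` has the same image under `(π, π σ)` and `(π, π)`, and the sum over all `σ` is
the relation `n fp(h) = 0`, up to a factor. The sum of the divisors `π_* L` is `|H| ^ 2 (K + 2 h)`,
because one of the functions `x - c`, `y - d` is a local parameter at the point `(c, d)`. So the
canonical divisor is a rational multiple of `h`.

All products of curves: the kernel of the Albanese map is generated by the images of the mixed
differences `(a - a') × (b - b')` on products of two curves. The two pointed curves `(C, a, a')` and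
`(C', b, b')` are dominated by one curve with the points `p`, `q`: choose functions on the
curves with the same values at `a`, `b` and at `a'`, `b'`, and a component of the fibre product of the
Galois closures.

Étale coverings of hyperelliptic curves: let `p` and `q` be two points of the curve `C`. There is a
function `f` on `C` whose poles are `p` and `q`, with the orders `m` and `m'`, and whose other critical
points are not degenerate. Let `c` be a value which is not critical, and `u ^ (m m') = 1 / (f - c)`.
As a covering of the line with the coordinate `u`, the curve with the function field `k(C)(u)` has
the ramification indices one and two, and is not ramified over infinity. Let `r` be a separable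
polynomial of even degree which vanishes at the branch points. The Galois closure `D` over `k(u)` of
the compositum with the field of `y ^ 2 = r(u)` has the index two over the zeros of `r`, and it is
unramified elsewhere, so it is étale over this hyperelliptic curve. The divisor of `du` is
`div(y) + (deg(r) / 2 - 2) P`, where `P` is the divisor of poles of `u`. The push-forward of `P` to `C`
is a multiple of the divisor of zeros of `f - c`, which is linearly equivalent to `m p + m' q`. So
the image of `FP(D)` is a nonzero multiple of `(p - q) × (p - q)`.

Étale coverings of the curves `y ^ 2 = x ^ n - 1`: over the algebraic numbers a function with the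
poles `p` and `q`, composed with a polynomial of Belyi and with `4 x (1 - x)`, gives a function whose
poles are `p` and `q`, which is unramified outside `0`, `1`, `∞`, and for which all points with the
value `1` have the index two. Let `g` be its inverse, and let `n` be even and divisible by all
orders of `g`. Now the construction above works with `x ^ n = g` and `y ^ 2 = x ^ n - 1`, and with the
Galois closure over the field of `g`. The divisor of zeros of `x` is linearly equivalent to the
divisor of poles, and its push-forward to `C` is a rational multiple of the divisor of zeros of
`g`, which has the form `m p + m' q`.

Curves over `ℚ`: let `h` be a Belyi function on a curve over `ℚ` with two rational zeros `p`, `q`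
of order `N`, and let `c` be a rational number which is not critical for `w = h ^ (-2 i)`,
`i = 1, 2`. The double covering `D'` given by the square root of `w - c` is a curve over `ℚ`,
because `w - c` has a simple zero, and the push-forward of `FP(D')` is `4 fp(K + i Y)`, where
`Y = N (p + q)`. The second difference of the quadratic function is
`2 fp(Y) = -2 N ^ 2 (p - q) × (p - q)`.

The existence of the Belyi functions over `ℚ`: the two pointed curves `(C, a, a')` and
`(C', b, b')` are dominated by one curve `D` over `ℚ` with rational points `P`, `O`: choose functions
`x`, `x'` on the curves with simple values `0` at `a`, `b` and `1` at `a'`, `b'` and with total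
ramification over points `e`, `e'` such that all conjugates of the branch points are different, and
let `D` be the fibre product of all Galois conjugates of `C → ℙ¹` and `C' → ℙ¹`. It is irreducible
because of the total ramification, and the points above `0` and `1` which lie above the conjugates
of `a`, `b` and `a'`, `b'` are rational. Then we choose functions over `ℚ` with a single pole at `P`,
respectively at `O`, in order to find a function over `ℚ` whose only poles are `P` and `O`, with the
same multiplicity. We apply a polynomial of Belyi and the polynomial `27 / 4 x² (1 - x)`, obtain a
function `u` with the same properties which is unramified outside `0`, `1` and `∞` and for which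
`1 - 1 / u` is not a square, and take the double covering `s² = 1 - 1 / u` of `D` and the function
`h = ((1 + s) / (1 - s))²`.
-/

set_option autoImplicit false

noncomputable section

namespace Pool.Agent.Results.MP_6dc9d1_nt.FaberPandharipande

open Pool.Agent.ZCyc Pool.Agent.Dess Pool.Agent.Dess4 Pool.Agent.FPZ Polynomial

theorem result :
    (∀ (k : Type) [Field k] [IsAlgClosed k] [CharZero k],
      (∀ (ι : Type) [Fintype ι] (L : ι → Type) [∀ i, Field (L i)] [∀ i, Algebra k (L i)],
        ∀ z : (∀ i, Place k (L i)) →₀ ℤ, AlbKer L z →
          ((∀ i, IsCurve k (L i)) → Spanned L (EtImage L) z) ∧
          ((∀ i, Elliptic k (L i)) → Spanned L (GenusFP 4 L) z)) ∧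
      ∀ (F : Type) [Field F] [Algebra k F],
        (IsCurve k F → ∀ z : (Bool → Place k F) →₀ ℤ, AlbKer (fun _ => F) z →
          Spanned (fun _ => F) (DoubleFP k F) (z + z.mapDomain swap)) ∧
        (∀ (f : k[X]) (x y : F), HypField f x y → Odd f.natDegree → f.Separable →
          ∀ z : (Bool → Place k F) →₀ ℤ, AlbKer (fun _ => F) z →
            Spanned (fun _ => F) (TwoPointFP k F (2 * f.natDegree - 4)) (z + z.mapDomain swap)) ∧
        (∀ u : F, Transcendental k u → FiniteDimensional (IntermediateField.adjoin k {u}) F →
          IsAbelianGalois (IntermediateField.adjoin k {u}) F → FPTor k F) ∧
        ∀ (n : ℕ) (x y : F), 0 < n → HirCurve k n x y → FPTor k F) ∧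
    (∀ (ι : Type) [Fintype ι] (L : ι → Type) [∀ i, Field (L i)] [∀ i, Algebra QQ (L i)],
      (∀ i, IsCurve QQ (L i)) → ∀ z : (∀ i, Place QQ (L i)) →₀ ℤ, AlbKer L z →
        Spanned L (FPCycleQ L) z ∧ Spanned L (FerImage L) z) ∧
    [ZeroCyclesConj, FPConjQ, FPFerConj].TFAE := by
  refine ⟨fun k _ _ _ => ⟨fun ι _ L _ _ z hz => ⟨fun hL => generation_et hL hz,
    fun hL => generation_ell hL hz⟩, fun F _ _ => ⟨fun hF z hz => generation_double hF hz,
      fun f x y h hodd hsep z hz => h.generation_two hodd hsep hz,
      fun u hu _ _ => fpTor_abelian hu, fun n x y hn h => fpTor_hirCurve hn h⟩⟩,
    fun ι _ L _ _ hL z hz => ⟨generation_fpQ hL hz, generation_fer hL hz⟩, ?_⟩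
  have h := fer_tfae
  tfae_have 1 ↔ 2 := h.out 0 2
  tfae_have 1 ↔ 3 := h.out 0 4
  tfae_finish

end Pool.Agent.Results.MP_6dc9d1_nt.FaberPandharipande
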