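import Pool.Agent.R22.Jac
import Pool.Agent.R22.Record
import Pool.Agent.Rank22.Rank

/-!
# Zero-cycles on Jacobians supported on groups of rational points

Let `C` be a curve over an algebraically closed field of characteristic zero, and let `J` be its
Jacobian. A set `S` of points of `C` is on no quadric if every symmetric bilinear form `b` on the
Picard group of `C` with values in `ℚ` and with `b(p, p) = 0` for all `p ∈ S` satisfies `b(p, q) = 0`
for all `p, q ∈ S`. Let `G` be the group of all divisor classes which have a positive multiple in the
group generated by the differences of points in `S`. Then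

(1) `A × B + B × A` is torsion in the Chow group of zero-cycles of `C × C` for all divisors `A`, `B`
with classes in `G`;

(2) every zero-cycle on `J` of degree zero and sum zero which is supported on `G` is torsion in the
Chow group of zero-cycles of `J`.

The conjectures of Beilinson and Bloch and of Birch and Swinnerton-Dyer predict (1) and (2) for all
groups `G` of points over number fields.

The record example: the curve of genus two

`C : y² = 82342800 x⁶ - 470135160 x⁵ + 52485681 x⁴ + 2396040466 x³ + 567207969 x² - 985905640 x
  + 247747600`

is the curve of genus two over `ℚ` with the largest known number of rational points. The set `S` of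
its `642` known rational points is on no quadric, and the rank of `G` is `22`. The Jacobian of `C` is
simple, and under the generalised Riemann hypothesis `G ∩ J(ℚ) = J(ℚ)` (these two remarks are not
formalised).

Idea of the proof. (1) Every homomorphism `l` from the Chow group of zero-cycles of `C × C` to `ℚ`
gives a symmetric bilinear form on the Picard group of `C`, with the value
`l(A × B + B × A - deg(A) Δ_*(B) - deg(B) Δ_*(A))` at `A` and `B`, where `Δ` is the diagonal map. The
value at `(p, p)` is zero for all points `p` of `C`. So the form vanishes on `S` and on `G`, and the
homomorphisms `l` detect the cycles which are not torsion.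

(2) Consider the group ring of the Picard group modulo the zero-cycles which are torsion, with the
classes `[c]`. For a divisor `D = ∑ m_i p_i` let `L_j(D) = ∑ m_i [j p_i] = ∑ m_i [p_i] ^ j`. It depends
only on the class of `D`, and if `D` is in `G`, then `L_i(D) L_j(D) = 0`, because it is the image of
the cycle `D × D`, which is torsion by (1). For classes `c_1, ..., c_r` in `G` and a point `o` there is
an `N` such that `c_i + N o` is the class of a sum of `N` points, so `[c_i + N o]` is the `N`-th
elementary symmetric function of these points. Their power sums are `N [o] ^ j + L_j(c_i)`. By the
identities of Newton `N! [c_i + N o]` is `α + ∑ β_j L_j(c_i)`, where `α` and `β_j` do not depend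
on `i`, because the products of the `L_j(c_i)` are zero. So it is an affine function of `c_i`.

(3) The record curve: let `P ↦ P'` be the hyperelliptic involution. The points in `S` are the `321`
pairs `P_n`, `P_n'`, and the sums of conjugate points are linearly equivalent. We give `299` relations
in the group `G`: a function `y - p(x)` with a polynomial `p` of degree three has six zeros in `S`, the
pair with the number `n ≥ 22` and five pairs with smaller numbers. So the differences `P_n - P_n'` are
combinations of the first `22` of them, and a form which has the value `b(P_n, P_n) = 0` at all pairs
is a solution of a system of `321` linear equations with `254` unknowns. We check that the matrix of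
this system has the rank `254` modulo `5`: we give `254` combinations of the rows which are the unit
vectors.

The rank is at least `22`: if a combination of the `P_i - P_i'` is torsion, then there is a function
`A + B y` over `ℚ` with the norm `c ∏ (x - x_i) ^ (a_i)`, `a_i = 2 N |m_i|`. The reduction modulo
`28` zeros of `f` modulo prime numbers, and the evenness of the degree, show that all `a_i` are even
and that `c` is a square. Since the sextic polynomial `f` is irreducible, `A + B y` is a constant times
a square, and the `a_i` can be divided by two, so that they are zero.
-/

set_option autoImplicit false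

noncomputable section

namespace Pool.Agent.Results.MP_6dc9d1_nt.RankTwentyTwo

open Pool.Agent.ZCyc Pool.Agent.Dess Pool.Agent.Dess4 Pool.Agent.FPZ Pool.Agent.R22 Polynomial

theorem result :
    (∀ (k F : Type) [Field k] [IsAlgClosed k] [CharZero k] [Field F] [Algebra k F], IsCurve k F →
      ∀ S : Set (Place k F), NoQuadric S →
        (∀ A B : Place k F →₀ ℤ, cls A ∈ Sat S → cls B ∈ Sat S → SymTor (prd A B)) ∧
        ∀ z : Pic k F →₀ ℤ, Null z → (z.support : Set (Pic k F)) ⊆ Sat S → TorJac z) ∧
    ∀ (F : Type) [Field F] [Algebra QQ F] (x y : F), HypField (sextic QQ) x y →
      ∃ S : Finset (Place QQ F), S.card = 642 ∧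
        (∀ p ∈ S, ∃ a b : ℚ, p.At x (a : QQ) ∧ p.At y (b : QQ)) ∧
        NoQuadric (S : Set (Place QQ F)) ∧ rk (Gen (S : Set (Place QQ F))) = 22 ∧
        ∀ z : Pic QQ F →₀ ℤ, Null z → (z.support : Set (Pic QQ F)) ⊆ Sat (S : Set (Place QQ F)) →
          TorJac z := by
  refine ⟨fun _ _ _ _ _ _ _ hF _ hS => ⟨fun _ _ hA hB => symTor_prd hS hA hB,
    fun _ h hz => torJac hF hS hz h⟩, fun _ _ _ _ _ h => ?_⟩
  obtain ⟨S, h1, h2, h3, h4⟩ :=
    record_set h fun _ hP _ hm => Pool.Agent.Rank22.rank h hP hm
  exact ⟨S, h1, h2, h3, h4, fun z hz hs => torJac h.curve h3 hs hz⟩

end Pool.Agent.Results.MP_6dc9d1_nt.RankTwentyTwo
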