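import Pool.Agent.ZCQL.TowerR
import Pool.Agent.ZCS.GoodN
import Pool.Agent.ZCS.GoodEx
import Pool.Agent.ZCS.SelTwo
import Pool.Agent.ZCS.SelInf

/-!
# Zero-cycles supported on rational points of elliptic curves

The conjectures of Beilinson and Bloch and of Birch and Swinnerton-Dyer predict that every
zero-cycle of degree zero and sum zero on a product of elliptic curves over a number field is
torsion.

(A) Let `f = x³ + a x² + b x + c` be a polynomial over `ℤ` without rational zeros, `E : y² = f(x)`, and
let `D` be one of the following groups of integers.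

(1) If the 2-Selmer group of `E` over `ℚ` has at most two elements (that is, if `E` has rank at most one
and no element of order two in the Tate-Shafarevich group), then `D` consists of the positive integers
`d` which are squares in `ℚ_p` for all primes `p` dividing twice the discriminant of `f`, such that `f`
has no zero modulo any of the primes which divide `d`. By a theorem of Bhargava and Shankar the average
of the order of the 2-Selmer group is three; if `p₀` and `p₁` are the densities of the curves for which
it is one and two then `3 p₀ + 2 p₁ ≥ 1`, so that at least one third of all elliptic curves over `ℚ`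
satisfy (1) (this remark is not formalised).

(2) If `f` has a zero `θ` such that the ring of integers of `ℚ(θ)` is `ℤ[θ]`, the class number is odd,
and, if the discriminant is positive, all totally positive units are squares, then `D` consists of all
integers `d ≠ 0` such that `f` has no zero modulo any of the primes which divide `d`. Examples are
`f = x³ - x + 1` and `f = x³ + x² - 2 x - 1`.

Let `F` be the field generated by the square roots of the elements of `D`. Then `F` has infinite degree,
the twist of `E` by every `d ∈ D` has rank at most one, and all zero-cycles over `ℚ` of degree zero and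
sum zero on `E × E` which are supported on `F`-rational points are torsion, and also those on `E ^ N`
for all `N` if every point of the support is defined over `ℚ(√d)` for some `d ∈ D`, which may depend on
the point.

(B) This is also true for all zero-cycles on the products of copies of the elliptic curves

  `E₀ : y² = x (x - 4810) (x - 5850)`,   `E₁ : y² = x (x - 1690) (x + 3120)`

which are supported on `L`-rational points, where `L = ℚ`, or `L = ℚ(√(130 p))` with a prime number
`p ≡ 353 mod 57720`, or `L` is any field over which the curves have the same ranks as over `ℚ`. The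
ranks of `E₀` and `E₁` over `ℚ` and over these quadratic fields are `4` and `3`.

(C) Let `z` be a zero-cycle over `L` of degree zero and sum zero on a product of elliptic curves
over `L`. Suppose that for every point of the support there is a tower `K₀ ⊆ K₁ ⊆ ⋯ ⊆ K_r` of finite
extensions of `L` such that the point has its coordinates in `K_r`, the sum of the ranks of the
different curves among the factors rises by at most one from every `K_m` to `K_{m+1}`, and it is at
most one over `K₀` (or the points over `K₀` on any two factors are in groups `HE` with the same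
abscissa, for example if the curves are `E₀`, `E₁` and `K₀ = L` is as in (B)). Then `z` is torsion.

The group `HE(E, v)` is the saturation of the group generated by the images in `E` of the points
with abscissa `v` of Legendre curves. Each point of `E` is in one of them, and there are infinitely
many elliptic curves over `ℚ` with different `j`-invariants which have four independent rational
points in `HE(E, 8 / 13)`.

Idea of the proof. Points of Legendre curves `y² = x (x - 1) (x - λ)`, `λ ∈ ℚ̄`, with the same
abscissa are orthogonal (`Pool.Agent.ZC`): their symbols are killed by two. The class of a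
zero-cycle is an affine function of every coordinate, its composition with a homomorphism to `ℚ` is
averaged over the Galois group and decomposed into multilinear functions, which are invariant and
vanish if two coordinates are in groups `HE` for the same abscissa. They vanish on points with
different quadratic characters, and if one point has trace zero from `K_{m+1}` to `K_m` and the
others are defined over `K_m`. The rank of the twist of `y² = f(x)` by `d` is at
most one in (A): the ideal of `m - θ z` is a square for the rational points `(m / e², w / e³)`,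
`z = d e²`. The four points of the curve `y² = x (x - 13 α) (x - 13 β)` with the abscissas `8 α`,
`8 β`, `5 α`, `5 β` all have the abscissa `8 / 13` in one of the six Legendre forms; the conditions
for their rationality define a curve of genus one and positive rank, which gives infinitely many
`j`-invariants. The ranks over `ℚ` are computed by Mordell's theorem and complete `2`-descents, and
the quadratic twists by `130 p` have no points of infinite order by two symbolic `2`-descents.
-/

set_option autoImplicit false

noncomputable section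

namespace Pool.Agent.Results.MP_6dc9d1_nt.RationalPointsRankFour

open WeierstrassCurve Pool.Agent.ZC Pool.Agent.ZCQ Pool.Agent.ZCQK Pool.Agent.ZCQL Pool.Agent.ZCS
open scoped Classical

/-- `z` is a zero-cycle over `L` on the product of the curves `A i`, of degree zero and sum zero. -/
def Null {L : IntermediateField ℚ (AlgebraicClosure ℚ)} {N : ℕ} (A : Fin N → WeierstrassCurve L)
    (z : Z0N fun i => (A i)⁄(AlgebraicClosure ℚ)) : Prop :=
  (∀ σ : AlgebraicClosure ℚ ≃ₐ[L] AlgebraicClosure ℚ,
    z.mapDomain (fun p i => galL (A i) σ (p i)) = z) ∧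
  z.sum (fun _ n => n) = 0 ∧ ∀ i, z.sum (fun p n => n • p i) = 0

/-- The coordinates of `p` are in `F`. -/
def Over {L : IntermediateField ℚ (AlgebraicClosure ℚ)} (F : IntermediateField L (AlgebraicClosure ℚ)) {N : ℕ}
    {A : Fin N → WeierstrassCurve L} (p : PtN fun i => (A i)⁄(AlgebraicClosure ℚ)) : Prop :=
  ∀ i x y h, p i = Affine.Point.some x y h → x ∈ F ∧ y ∈ F

/-- `z` is a zero-cycle over `L` on the product of the curves `A i`, of degree zero and sum zero and supported on
points with coordinates in `F`. -/
def NullOn {L : IntermediateField ℚ (AlgebraicClosure ℚ)} (F : IntermediateField L (AlgebraicClosure ℚ)) {N : ℕ}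
    (A : Fin N → WeierstrassCurve L) (z : Z0N fun i => (A i)⁄(AlgebraicClosure ℚ)) : Prop :=
  Null A z ∧ ∀ p ∈ z.support, Over F p

/-- A positive multiple of `z` is rationally equivalent to zero. -/
def Tors {N : ℕ} {A : Fin N → WeierstrassCurve (AlgebraicClosure ℚ)} (z : Z0N A) : Prop :=
  ∃ M : ℕ, 0 < M ∧ M • z ∈ RatEqN A

/-- The fields `K 0 ≤ K 1 ≤ ⋯` are finite extensions of `L`, and for `m < r` the sum of the ranks of the different curves
among the `B (c i)` rises by at most one from `K m` to `K (m + 1)`. -/
def Slow {L : IntermediateField ℚ (AlgebraicClosure ℚ)} {s N : ℕ} (B : Fin s → WeierstrassCurve L) (c : Fin N → Fin s)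
    (K : ℕ → IntermediateField L (AlgebraicClosure ℚ)) (r : ℕ) : Prop :=
  (∀ m, FiniteDimensional L (K m)) ∧ Monotone K ∧ ∀ m < r,
    ∑ n ∈ Finset.univ.image c, Module.rank ℤ ((B n)⁄(K (m + 1))).toAffine.Point ≤
      ((∑ n ∈ Finset.univ.image c, Module.finrank ℤ ((B n)⁄(K m)).toAffine.Point + 1 : ℕ) : Cardinal)

/-- The sum of the ranks over `K` of the different curves among the `B (c i)` is at most one, or the points over `K` on any
two of the curves `B (c i)`, `B (c j)`, `i ≠ j`, are in groups `HE` for the same abscissa. -/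
def Start {L : IntermediateField ℚ (AlgebraicClosure ℚ)} {s N : ℕ} (B : Fin s → WeierstrassCurve L) (c : Fin N → Fin s)
    (K : IntermediateField L (AlgebraicClosure ℚ)) : Prop :=
  ∑ n ∈ Finset.univ.image c, Module.rank ℤ ((B n)⁄K).toAffine.Point ≤ 1 ∨ ∀ i j, i ≠ j →
    ∀ (P : ((B (c i))⁄K).toAffine.Point) (Q : ((B (c j))⁄K).toAffine.Point), ∃ v,
      Affine.Point.map (W' := (B (c i)).toAffine) K.val P ∈ HE ((B (c i))⁄(AlgebraicClosure ℚ)) v ∧
      Affine.Point.map (W' := (B (c j)).toAffine) K.val Q ∈ HE ((B (c j))⁄(AlgebraicClosure ℚ)) v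

/-- The square roots of the integers in `D`. -/
def SS (D : ℤ → Prop) : Set (AlgebraicClosure ℚ) := {s | ∃ d : ℤ, D d ∧ s ^ 2 = d}

/-- The field generated over `L` by the square roots of the integers in `D`. -/
def FS (D : ℤ → Prop) (L : IntermediateField ℚ (AlgebraicClosure ℚ)) : IntermediateField L (AlgebraicClosure ℚ) :=
  IntermediateField.adjoin L (SS D)

theorem result :
    (∀ L : IntermediateField ℚ (AlgebraicClosure ℚ), L = ⊥ →
      ∀ (a b c : ℤ) (D : ℤ → Prop), (SelTwo a b c ∧ D = Quiet a b c) ∨
          (Good a b c ∧ D = fun d => d ≠ 0 ∧ Silent a b c d) →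
        ¬ FiniteDimensional L (FS D L) ∧
        (∀ d : ℤ, D d → Module.rank ℤ (twc a b c d).toAffine.Point ≤ 1) ∧
        (∀ z, NullOn (FS D L) (fun _ : Fin 2 => (⟨0, a, 0, b, c⟩ : WeierstrassCurve ℚ)⁄L) z →
          Tors z) ∧
        ∀ (N : ℕ) (z), Null (fun _ : Fin N => (⟨0, a, 0, b, c⟩ : WeierstrassCurve ℚ)⁄L) z →
          (∀ p ∈ z.support, ∃ s ∈ SS D, Over (IntermediateField.adjoin L {s}) p) → Tors z) ∧
    Good 0 (-1) 1 ∧ Good 1 (-2) (-1) ∧
    (∀ E : Fin 2 → WeierstrassCurve ℚ, E 0 = ⟨0, -10660, 0, 28138500, 0⟩ →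
      E 1 = ⟨0, 1430, 0, -5272800, 0⟩ → ∀ L : IntermediateField ℚ (AlgebraicClosure ℚ),
      ((L = ⊥ ∨ QF L) → ∀ n : Fin 2,
        Module.finrank ℤ ((E n)⁄L).toAffine.Point = 4 - (n : ℕ)) ∧
      ∀ (N : ℕ) (c : Fin N → Fin 2),
        (∀ i, Module.finrank ℤ ((E (c i))⁄L).toAffine.Point = 4 - (c i : ℕ)) →
        (∀ z : Z0N fun i => (E (c i))⁄(AlgebraicClosure ℚ),
          (∀ p ∈ z.support, ∀ i x y h, p i = Affine.Point.some x y h → x ∈ L ∧ y ∈ L) →
          z.sum (fun _ n => n) = 0 → (∀ i, z.sum (fun p n => n • p i) = 0) → Tors z) ∧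
        ∀ z, Null (fun i => (E (c i))⁄L) z → (∀ p ∈ z.support, ∃ K r,
          K 0 = ⊥ ∧ Slow (fun n => (E n)⁄L) c K r ∧ Over (K r) p) → Tors z) ∧
    {L : IntermediateField ℚ (AlgebraicClosure ℚ) | QF L}.Infinite ∧
    (∀ L : IntermediateField ℚ (AlgebraicClosure ℚ), QF L → Module.finrank ℚ L = 2) ∧
    (∀ (L : IntermediateField ℚ (AlgebraicClosure ℚ)) (s N : ℕ) (B : Fin s → WeierstrassCurve L)
      (c : Fin N → Fin s), (∀ n, (B n).IsElliptic) →
      ∀ z, Null (fun i => B (c i)) z → (∀ p ∈ z.support, ∃ K r,
        Start B c (K 0) ∧ Slow B c K r ∧ Over (K r) p) → Tors z) ∧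
    (∀ (E : WeierstrassCurve (AlgebraicClosure ℚ)) (P : E.toAffine.Point), E.IsElliptic →
      ∃ v, P ∈ HE E v) ∧
    ∃ E : ℕ → WeierstrassCurve ℚ, (∀ n, (E n).IsElliptic) ∧
      (∀ n n', (E n).c₄ ^ 3 / (E n).Δ = (E n').c₄ ^ 3 / (E n').Δ → n = n') ∧
      (∀ n, n ≠ 1 → ∃ P : Fin 4 → ((E n)⁄(AlgebraicClosure ℚ)).toAffine.Point,
        LinearIndependent ℤ P ∧ ∀ i, (∀ σ : AlgebraicClosure ℚ ≃ₐ[ℚ] AlgebraicClosure ℚ,
          Affine.Point.map (W' := (E n).toAffine) σ.toAlgHom (P i) = P i) ∧
          P i ∈ HE ((E n)⁄(AlgebraicClosure ℚ)) (8 / 13)) ∧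
      E 0 = ⟨0, -10660, 0, 28138500, 0⟩ ∧ E 1 = ⟨0, 1430, 0, -5272800, 0⟩ ∧
      ∀ n, n < 2 → ∀ L : IntermediateField ℚ (AlgebraicClosure ℚ),
        Module.finrank ℤ ((E n)⁄L).toAffine.Point = 4 - n →
        ∀ P : (((E n)⁄L)⁄(AlgebraicClosure ℚ)).toAffine.Point,
          (∀ σ : AlgebraicClosure ℚ ≃ₐ[L] AlgebraicClosure ℚ, galL ((E n)⁄L) σ P = P) →
          P ∈ HE (((E n)⁄L)⁄(AlgebraicClosure ℚ)) (8 / 13) := by
  obtain ⟨-, h2, E, h3, h4, h5, h6, h7, h8, -, h9, h10⟩ := main_aux3
  refine ⟨fun L hL a b c D hD => ?_, good23, good7,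
    fun F f0 f1 L => ⟨(main_rc F f0 f1 L).1, fun N c hL =>
    ⟨fun z hz hd hs => (main_rc F f0 f1 L).2 N c z hL hz hd hs, fun z hz hp =>
      main_towerE F f0 f1 L N c z hL hz.1 hz.2.1 hz.2.2 fun p hpz => ?_⟩⟩, h9, h10,
    fun L s N B c hB z hz hp => main_towerB L s N B hB c z hz.1 hz.2.1 hz.2.2
      fun p hpz => ?_,
    h2, E, h3, h4, h5, h6, h7, h8⟩
  · rcases hD with ⟨hg, rfl⟩ | ⟨hg, rfl⟩
    · refine ⟨infinite_quiet hg.1 hg.dsc_ne hL rfl, fun d hd => rank_le_one_of_dep (sel_dep hg hd),
        fun z hz => main_sel hg rfl hL rfl z hz.1.1 hz.1.2.1 hz.1.2.2 hz.2,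
        fun N z hz hp => main_selN hg rfl hL N z hz.1 hz.2.1 hz.2.2 fun p hpz => ?_⟩
      obtain ⟨s, ⟨d, hd, e⟩, ho⟩ := hp p hpz
      exact ⟨s, d, hd, e, ho⟩
    · have hF : FS (fun d => d ≠ 0 ∧ Silent a b c d) L = IntermediateField.adjoin L
          {s : AlgebraicClosure ℚ | ∃ d : ℤ, d ≠ 0 ∧ Silent a b c d ∧ s ^ 2 = d} := by
        rw [FS, SS]
        simp only [and_assoc]
      refine ⟨infinite_silent hg.1 hL hF,
        fun d hd => rank_le_one_of_dep (good_dep hg hd.1 hd.2),
        fun z hz => main_good hg rfl hL hF z hz.1.1 hz.1.2.1 hz.1.2.2 hz.2,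
        fun N z hz hp => main_goodN hg rfl hL N z hz.1 hz.2.1 hz.2.2 fun p hpz => ?_⟩
      obtain ⟨s, ⟨d, ⟨hd, hs⟩, e⟩, ho⟩ := hp p hpz
      exact ⟨s, d, hd, hs, e, ho⟩
  · obtain ⟨K, r, h0, hs, ho⟩ := hp p hpz
    exact ⟨K, r, hs.1, hs.2.1, h0, ho, hs.2.2⟩
  · obtain ⟨K, r, h0, hs, ho⟩ := hp p hpz
    exact ⟨K, r, hs.1, hs.2.1, ho, h0, hs.2.2⟩

end Pool.Agent.Results.MP_6dc9d1_nt.RationalPointsRankFour
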